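import Pool.Agent.Helper96.SE.St

/-!
# Project SE, module E5: bound of the character sums over all extensions
-/

set_option autoImplicit false

namespace Pool.Agent.Helper38.SE

open NumberField IsDedekindDomain Polynomial Filter Topology
open Pool.Agent.Helper96.SE Pool.Agent.Helper96.BC Pool.Agent.Helper95.TT
open Pool.Agent.Helper24.TF Pool.Agent.Helper95.WS
open scoped Classical

private lemma point {F : Type} [Field F] [Fintype F] (ψ : MulChar F ℂ) (n : ℕ) (hn : n.Prime)
    (hψn : ψ ^ n = 1) (hdvd : n ∣ Fintype.card F - 1) (g : Fˣ)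
    (hg : ∀ x, x ∈ Subgroup.zpowers g) (K : Type) [Field K] [Fintype K] [Algebra F K] (y : K) :
    ψ (Algebra.norm F y) = ∑ i ∈ Finset.range n, (ψ (g : F)) ^ i *
      (if y ^ ((Fintype.card K - 1) / n) =
        algebraMap F K ((g : F) ^ (i * ((Fintype.card F - 1) / n))) then 1 else 0) := by
  have hq1 : 0 < Fintype.card F - 1 := Nat.sub_pos_of_lt Fintype.one_lt_card
  have hnq : n ≤ Fintype.card F - 1 := Nat.le_of_dvd hq1 hdvd
  have : Module.Finite F K := Module.Finite.of_finite
  have hdK : Fintype.card F - 1 ∣ Fintype.card K - 1 := by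
    rw [Module.card_eq_pow_finrank (K := F) (V := K)]
    simpa using Nat.sub_dvd_pow_sub_pow (Fintype.card F) 1 (Module.finrank F K)
  have hQ1 : 0 < Fintype.card K - 1 := Nat.sub_pos_of_lt Fintype.one_lt_card
  obtain ⟨e, he⟩ := hdvd
  have hn0 : 0 < n := hn.pos
  have hediv : (Fintype.card F - 1) / n = e := by
    rw [he]; exact Nat.mul_div_cancel_left e hn0
  have he0 : e ≠ 0 := by
    rintro rfl
    omega
  obtain ⟨l, hl⟩ := hdK
  have hldiv : (Fintype.card K - 1) / (Fintype.card F - 1) = l := by
    rw [hl]; exact Nat.mul_div_cancel_left l hq1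
  have hKdiv : (Fintype.card K - 1) / n = l * e := by
    rw [hl, he, mul_assoc]
    rw [Nat.mul_div_cancel_left _ hn0]
    ring
  rw [hediv, hKdiv]
  by_cases hy : y = 0
  · subst hy
    have hl0 : l ≠ 0 := by
      rintro rfl
      omega
    rw [Algebra.norm_zero, MulChar.map_zero]
    symm
    apply Finset.sum_eq_zero
    intro i _
    rw [if_neg, mul_zero]
    rw [zero_pow (mul_ne_zero hl0 he0)]
    intro h
    have h2 := (map_eq_zero_iff (algebraMap F K) (algebraMap F K).injective).mp h.symm
    exact (pow_ne_zero _ g.ne_zero) h2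
  · have hc : Algebra.norm F y ≠ 0 := by
      rw [Ne, Algebra.norm_eq_zero_iff]
      exact hy
    have hmem := hg (Units.mk0 _ hc)
    rw [← mem_powers_iff_mem_zpowers] at hmem
    obtain ⟨j, hj⟩ := hmem
    have hj' : (g : F) ^ j = Algebra.norm F y := by
      have := congrArg Units.val hj
      simpa using this
    have hnorm : algebraMap F K (Algebra.norm F y) = y ^ l := by
      rw [FiniteField.algebraMap_norm_eq_pow, Nat.card_eq_fintype_card,
        Nat.card_eq_fintype_card, hldiv]
    have hord : orderOf g = n * e := by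
      rw [orderOf_eq_card_of_forall_mem_zpowers hg, Nat.card_eq_fintype_card,
        Fintype.card_units, he]
    have hiff : ∀ i : ℕ, (y ^ (l * e) = algebraMap F K ((g : F) ^ (i * e))) ↔ j ≡ i [MOD n] := by
      intro i
      rw [pow_mul, ← hnorm, ← map_pow, ← hj', ← pow_mul]
      rw [(algebraMap F K).injective.eq_iff]
      have : ((g : F) ^ (j * e) = (g : F) ^ (i * e)) ↔ (g ^ (j * e) = g ^ (i * e)) := by
        constructor
        · intro h
          ext
          simpa using h
        · intro h
          have := congrArg Units.val h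
          simpa using this
      rw [this, pow_eq_pow_iff_modEq, hord]
      constructor
      · intro h
        exact Nat.ModEq.mul_right_cancel' he0 h
      · intro h
        exact Nat.ModEq.mul_right' e h
    have hψg : (ψ (g : F)) ^ n = 1 := by
      rw [← MulChar.pow_apply_coe, hψn, MulChar.one_apply_coe]
    rw [← hj', map_pow]
    rw [Finset.sum_eq_single (j % n)]
    · rw [if_pos, mul_one]
      · conv_lhs => rw [← Nat.div_add_mod j n]
        rw [pow_add, pow_mul, hψg, one_pow, one_mul]
      · rw [hiff]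
        exact (Nat.mod_modEq j n).symm
    · intro i hi hij
      rw [if_neg, mul_zero]
      rw [hiff]
      intro h
      apply hij
      have : j % n = i % n := h
      rw [this, Nat.mod_eq_of_lt (Finset.mem_range.mp hi)]
    · intro h
      exact absurd (Finset.mem_range.mpr (Nat.mod_lt j hn0)) h

/-- **E5** -/
theorem hE5 : StE4 → StE5 := by
  intro h4 F _ _ ψ n f hn hψ1 hψn hf hNP
  have hord : orderOf ψ = n := by
    have := Fact.mk hn
    exact orderOf_eq_prime hψn hψ1
  have hdvd : n ∣ Fintype.card F - 1 := by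
    rw [← hord]
    exact MulChar.orderOf_dvd_card_sub_one _ ψ
  obtain ⟨C₀, hC₀⟩ := h4 F n f hn hdvd hf hNP
  obtain ⟨g, hg⟩ := IsCyclic.exists_generator (α := Fˣ)
  have hθn : (ψ (g : F)) ^ n = 1 := by
    rw [← MulChar.pow_apply_coe, hψn, MulChar.one_apply_coe]
  have hθ1 : ψ (g : F) ≠ 1 := by
    intro h
    apply hψ1
    rw [MulChar.eq_iff hg, h, MulChar.one_apply_coe]
  have hsum : ∑ i ∈ Finset.range n, (ψ (g : F)) ^ i = 0 := by
    rw [geom_sum_eq hθ1, hθn, sub_self, zero_div]
  have hnorm : ‖ψ (g : F)‖ = 1 := Complex.norm_eq_one_of_pow_eq_one hθn hn.ne_zero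
  refine ⟨n * C₀, fun K _ _ _ => ?_⟩
  have hSS : SS ψ f K = ∑ i ∈ Finset.range n, (ψ (g : F)) ^ i *
      (((Finset.univ.filter (fun x : K => (aeval x f) ^ ((Fintype.card K - 1) / n) =
        algebraMap F K ((g : F) ^ (i * ((Fintype.card F - 1) / n))))).card : ℂ) -
        (Fintype.card K : ℂ) / n) := by
    have h1 : ∑ i ∈ Finset.range n, (ψ (g : F)) ^ i * ((Fintype.card K : ℂ) / n) = 0 := by
      rw [← Finset.sum_mul, hsum, zero_mul]
    simp only [mul_sub]
    rw [Finset.sum_sub_distrib, h1, sub_zero]
    unfold SS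
    rw [Finset.sum_congr rfl (fun x _ => point ψ n hn hψn hdvd g hg K (aeval x f))]
    rw [Finset.sum_comm]
    apply Finset.sum_congr rfl
    intro i _
    rw [← Finset.mul_sum, Finset.sum_boole]
  rw [hSS]
  calc ‖∑ i ∈ Finset.range n, (ψ (g : F)) ^ i *
      (((Finset.univ.filter (fun x : K => (aeval x f) ^ ((Fintype.card K - 1) / n) =
        algebraMap F K ((g : F) ^ (i * ((Fintype.card F - 1) / n))))).card : ℂ) -
        (Fintype.card K : ℂ) / n)‖
      ≤ ∑ i ∈ Finset.range n, C₀ * √(Fintype.card K) := by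
        refine (norm_sum_le _ _).trans (Finset.sum_le_sum fun i _ => ?_)
        rw [norm_mul, norm_pow, hnorm, one_pow, one_mul]
        have hζ : ((g : F) ^ (i * ((Fintype.card F - 1) / n))) ^ n = 1 := by
          rw [← pow_mul, mul_assoc, Nat.div_mul_cancel hdvd, mul_comm, pow_mul,
            FiniteField.pow_card_sub_one_eq_one _ g.ne_zero, one_pow]
        have h := hC₀ K _ hζ
        refine le_trans (le_of_eq ?_) h
        rw [← Real.norm_eq_abs, ← Complex.norm_real]
        congr 1
        push_cast
        rfl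
    _ = n * C₀ * √(Fintype.card K) := by
        rw [Finset.sum_const, Finset.card_range, nsmul_eq_mul, mul_assoc]

end Pool.Agent.Helper38.SE
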